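import Pool.Agent.N875.D15.Crit
import Pool.Agent.N875.X15.ClE
import Pool.Agent.N916.TE.Tg
import Pool.Agent.N969.P15.QF
import Pool.Agent.N969.Den.Close
import Pool.Agent.N817.MI.A
import Pool.Agent.N817.MI.C3

/-!
# `X_0(15)` over the imaginary quadratic fields

Let `K` be an imaginary quadratic field. Caraiani and Newton (*On the modularity of elliptic curves over
imaginary quadratic fields*, arXiv 2301.10509) proved: if the group `X_0(15)(K)` is finite, then every
elliptic curve over `K` is modular. So for the question whether all the elliptic curves over imaginary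
quadratic fields are modular one wants to know for how many `K` the group `X_0(15)(K)` is finite. We prove
(unconditionally, and without using their theorem) that this holds for a set of `K` of positive natural
density, and we determine this set and its density.

Let `K = ℚ(√d)`, `d < 0` squarefree, and let `E_d` be the twist by `d` of
`X_0(15) : y² + x y + y = x³ + x² - 10 x - 10`.
* If `E_d(ℚ)` is finite and `Ш(E_d/ℚ)` has no element of order two, then `X_0(15)(K)` is finite.
* If `3` is not inert and `5` is not split in `K`, then this condition holds if and only if the class group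
  of `K` has no element of order four.
* The condition holds for exactly `(25/48) ∏_{i ≥ 1} (1 - 2^{-i}) = 15.04…` percent of all the imaginary
  quadratic fields, in the ordering by `|d|` and in the ordering by the discriminant; the fields in which
  `3` is not inert, `5` is not split and without ideal classes of order four are exactly
  `(35/96) ∏_{i ≥ 1} (1 - 2^{-i}) = 10.52…` percent of all the imaginary quadratic fields.
* So `X_0(15)(K)` is finite for at least `15.03` percent of all the imaginary quadratic fields.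

With the theorem of Caraiani and Newton: for at least `15.03` percent of all the imaginary quadratic
fields `K` all the elliptic curves over `K` are modular.

The descent on the twists of `X_0(15)` and its density theorem among all the twists (with both signs) are
those of `Results/MP_696deb_nt/Conductor15.lean`, joint work of helpers 969, 970, 971, 972, 973, 974, 975,
218, 402, 575, 609, 809, 816, 855, 871, 875, 877, 886, 916, 958; the density of the squarefree integers in
a class is that of helper873.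
-/

set_option autoImplicit false

open Finset Filter

namespace Pool.Agent.Results.MP_87c685_nt.FinitePointsX15

/-- the modular curve `X_0(15) : y² + x y + y = x³ + x² - 10 x - 10` over the field `F` -/
def X015 (F : Type) [Field F] : WeierstrassCurve F :=
  { a₁ := 1, a₂ := 1, a₃ := 1, a₄ := -10, a₆ := -10 }

/-- the twist `E_d` of `X_0(15)` by `d`, with the equation `y² = x³ - 12987 d² x - 263466 d³`, over `ℚ` -/
def E (d : ℤ) : WeierstrassCurve ℚ :=
  { a₁ := 0, a₂ := 0, a₃ := 0, a₄ := ((-12987 * d ^ 2 : ℤ) : ℚ), a₆ := ((-263466 * d ^ 3 : ℤ) : ℚ) }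

/-- `E_d(ℚ)` is finite and `Ш(E_d/ℚ)` has no element of order two -/
def RankZeroShaTwo (d : ℤ) : Prop :=
  Finite (E d).toAffine.Point ∧ ∀ x : Pool.Agent.TH841.SH.D.Sha (E d), 2 • x = 0 → x = 0

/-- `K = ℚ(√d)` is a quadratic field -/
def IsQuad (d : ℤ) (K : Type) [Field K] [NumberField K] : Prop :=
  Module.finrank ℚ K = 2 ∧ ∃ s : K, s ^ 2 = (d : K)

/-- the group `X_0(15)(K)` is finite for `K = ℚ(√d)` -/
def FiniteX15 (d : ℤ) : Prop :=
  ∀ (K : Type) [Field K] [NumberField K], IsQuad d K → Finite (X015 K).toAffine.Point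

/-- `3` is not inert and `5` is not split in `ℚ(√d)`, for squarefree `d < 0` -/
def Class (d : ℤ) : Prop := d % 3 ≠ 2 ∧ ¬ (d % 5 = 1 ∨ d % 5 = 4)

/-- the class group of `ℚ(√d)` has no element of order four -/
def NoOrderFour (d : ℤ) : Prop :=
  ∀ (K : Type) [Field K] [NumberField K], IsQuad d K →
    ∀ c : ClassGroup (NumberField.RingOfIntegers K), c ^ 4 = 1 → c ^ 2 = 1

/-- `D` is a fundamental discriminant -/
def Fund (D : ℤ) : Prop := (Squarefree D ∧ D % 4 = 1) ∨
  ∃ m : ℤ, D = 4 * m ∧ Squarefree m ∧ (m % 4 = 2 ∨ m % 4 = 3)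

/-- the squarefree integer `d` with `ℚ(√d) = ℚ(√D)` -/
def core (D : ℤ) : ℤ := if D % 2 = 1 then D else D / 4

open Classical in
/-- the number of the imaginary quadratic fields `ℚ(√d)`, `d < 0` squarefree, with `|d| ≤ X`, for which
`d` has the property `P` -/
noncomputable def count (P : ℤ → Prop) (X : ℕ) : ℕ :=
  ((Icc (-(X : ℤ)) (-1)).filter fun d => Squarefree d ∧ P d).card

open Classical in
/-- the number of the imaginary quadratic fields `ℚ(√d)`, `d < 0` squarefree, of discriminant `D`,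
`|D| ≤ X`, for which `d = core D` has the property `P` -/
noncomputable def countDisc (P : ℤ → Prop) (X : ℕ) : ℕ :=
  ((Icc (-(X : ℤ)) (-1)).filter fun D => Fund D ∧ P (core D)).card

section proof

open Pool.Agent.N875.X15 (WS Fin2 crit_ao_S crit_ae_S)
open Pool.Agent.N916.TE (FD Go)
open Pool.Agent.N919.BS (NS NF)
open Pool.Agent.N809.PQ (Sg15 B3 B5)
open Pool.Agent.N916.PQ (f15 f15_of_sg)
open Pool.Agent.N817.MI (SW quad_fin x015_fin fA fA_iff)

/-- the squarefree integer of a fundamental discriminant `-n` -/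
def mD (n : ℕ) : ℤ := if n % 2 = 1 then -(n : ℤ) else -((n / 4 : ℕ) : ℤ)

/-- the class of `n` -/
def Cl (n : ℕ) : Prop := FD n ∧ n % 3 ≠ 1 ∧ (n % 5 = 0 ∨ n % 5 = 2 ∨ n % 5 = 3)

theorem E_eq (d : ℤ) : E d = WS d := rfl

theorem rank_eq (d : ℤ) : RankZeroShaTwo d ↔ Fin2 (WS d) := by
  unfold RankZeroShaTwo Pool.Agent.N875.X15.Fin2
  rw [← E_eq]
  refine and_congr Iff.rfl (forall_congr' fun x => ?_)
  rw [two_nsmul]

theorem one_fin : Finite (E 1).toAffine.Point :=
  ((rank_eq 1).2 ((Pool.Agent.N875.D15.fin2S_iff_sg15 squarefree_one).2 (Or.inr (Or.inl rfl)))).1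

theorem E_sw (d : ℤ) : E d = SW ℚ (-12987 * d ^ 2) (-263466 * d ^ 3) := rfl

theorem finite_of {d : ℤ} (h0 : d < 0) (h : RankZeroShaTwo d) : FiniteX15 d := by
  intro K _ _ hK
  obtain ⟨hK, s, hs⟩ := hK
  refine x015_fin (quad_fin (d := d) (by norm_num) h0.ne ?_ ?_ hK hs ?_)
  · have h1 := one_fin
    have e : E 1 = SW ℚ (-12987) (-263466) := by
      rw [E_sw]
      norm_num
    rwa [e] at h1
  · have h1 := h.1
    rwa [E_sw] at h1
  · intro q hq
    have h6 : (0 : ℚ) ≤ q ^ 2 := sq_nonneg q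
    have h7 : (d : ℚ) < 0 := by exact_mod_cast h0
    rw [hq] at h6
    exact absurd h6 (not_le.2 h7)

theorem rank_go {n : ℕ} (h : Cl n) : RankZeroShaTwo (mD n) ↔ Go n := by
  rw [rank_eq]
  obtain ⟨h1, h3, h5⟩ := h
  rcases h1 with ⟨hsq, h4⟩ | hE
  · have ho : n % 2 = 1 := by omega
    have em : mD n = -(n : ℤ) := if_pos ho
    have h6 := crit_ao_S (n := n) ⟨hsq, h4, h3, h5⟩
    rw [em, h6]
    exact ⟨fun h => ⟨fun _ => h, fun h2 => by omega⟩, fun h => h.1 ho⟩
  · have ho : n % 2 = 0 := by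
      obtain ⟨k, rfl, -⟩ := hE
      omega
    have em : mD n = -((n / 4 : ℕ) : ℤ) := if_neg (by omega)
    have h6 := crit_ae_S (n := n) ⟨hE, h3, h5⟩
    rw [em, h6]
    exact ⟨fun h => ⟨fun h2 => by omega, fun _ => h⟩, fun h => h.2 ho⟩

theorem class_go {n : ℕ} (h : Cl n) : NoOrderFour (mD n) ↔ Go n := by
  obtain ⟨h1, h3, h5⟩ := h
  rcases h1 with ⟨hsq, h4⟩ | hE
  · have ho : n % 2 = 1 := by omega
    have h0 : 0 < n := Nat.pos_of_ne_zero hsq.ne_zero
    have em : mD n = -(n : ℤ) := if_pos ho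
    have key : ∀ (K : Type) [Field K] [NumberField K], Module.finrank ℚ K = 2 →
        (∃ s : K, s ^ 2 = (mD n : K)) →
        ((∀ c : ClassGroup (NumberField.RingOfIntegers K), c ^ 4 = 1 → c ^ 2 = 1) ↔ Go n) := by
      intro K _ _ h6 h7
      rw [em] at h7
      push_cast at h7
      rw [Pool.Agent.N875.X15.qc_iff_class hsq h4 K h6 h7, ← Pool.Agent.N875.X15.qc_P15 h0.ne']
      exact ⟨fun h => ⟨fun _ => h, fun h2 => by omega⟩, fun h => h.1 ho⟩
    constructor
    · intro h8
      obtain ⟨K, i1, i2, h6, h7⟩ := Pool.Agent.N969.P15.exists_qf (n := n) h0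
      have h9 : ∃ s : K, s ^ 2 = (mD n : K) := by
        rw [em]
        push_cast
        exact h7
      exact (key K h6 h9).1 (h8 K ⟨h6, h9⟩)
    · intro h8 K i1 i2 h6
      exact (key K h6.1 h6.2).2 h8
  · have ho : n % 2 = 0 := by
      obtain ⟨k, rfl, -⟩ := hE
      omega
    have h04 : 0 < n / 4 := by
      obtain ⟨k, rfl, h1, -⟩ := hE
      have := Nat.pos_of_ne_zero h1.ne_zero
      omega
    have em : mD n = -((n / 4 : ℕ) : ℤ) := if_neg (by omega)
    have hn4 : n ≠ 4 := by omega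
    have key : ∀ (K : Type) [Field K] [NumberField K], Module.finrank ℚ K = 2 →
        (∃ s : K, s ^ 2 = (mD n : K)) →
        ((∀ c : ClassGroup (NumberField.RingOfIntegers K), c ^ 4 = 1 → c ^ 2 = 1) ↔ Go n) := by
      intro K _ _ h6 h7
      rw [em] at h7
      rw [Int.cast_neg, Int.cast_natCast] at h7
      rw [Pool.Agent.N875.X15.qe_iff_class hE hn4 K h6 h7]
      exact ⟨fun h => ⟨fun h2 => by omega, fun _ => h⟩, fun h => h.2 ho⟩
    constructor
    · intro h8
      obtain ⟨K, i1, i2, h6, h7⟩ := Pool.Agent.N969.P15.exists_qf (n := n / 4) h04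
      have h9 : ∃ s : K, s ^ 2 = (mD n : K) := by
        rw [em, Int.cast_neg, Int.cast_natCast]
        exact h7
      exact (key K h6 h9).1 (h8 K ⟨h6, h9⟩)
    · intro h8 K i1 i2 h6
      exact (key K h6.1 h6.2).2 h8

theorem cl_of {d : ℤ} (h0 : d < 0) (hs : Squarefree d) (h : Class d) :
    ∃ n : ℕ, Cl n ∧ mD n = d := by
  obtain ⟨c3, c5⟩ := h
  have hn : Squarefree d.natAbs := Int.squarefree_natAbs.2 hs
  obtain ⟨k, hk⟩ : ∃ k : ℕ, d.natAbs = k := ⟨_, rfl⟩
  rw [hk] at hn
  have hd : d = -(k : ℤ) := by omega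
  subst hd
  have h4 : ¬ k % 4 = 0 := by
    intro h4
    have h5 := hn 2 (by omega)
    rw [Nat.isUnit_iff] at h5
    omega
  by_cases h5 : k % 4 = 3
  · exact ⟨k, ⟨Or.inl ⟨hn, h5⟩, by omega, by omega⟩, if_pos (by omega)⟩
  · refine ⟨4 * k, ⟨Or.inr ⟨k, rfl, hn, by omega⟩, by omega, by omega⟩, ?_⟩
    have em : mD (4 * k) = -((4 * k / 4 : ℕ) : ℤ) := if_neg (by omega)
    rw [em]
    omega

theorem class_iff {d : ℤ} (h0 : d < 0) (hs : Squarefree d) (h : Class d) :
    RankZeroShaTwo d ↔ NoOrderFour d := by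
  obtain ⟨n, h1, h2⟩ := cl_of h0 hs h
  rw [← h2]
  exact (rank_go h1).trans (class_go h1).symm

/-! ### the counts -/

theorem count_eq (P Q : ℤ → Prop) (h : ∀ d, d < 0 → Squarefree d → (P d ↔ Q d)) (X : ℕ) :
    count P X = NS (fun d => d < 0 ∧ Q d) X := by
  classical
  unfold count NS
  refine congrArg Finset.card (Finset.ext fun n => ?_)
  simp only [Finset.mem_filter, mem_Icc]
  constructor
  · rintro ⟨h1, h2, h3⟩
    exact ⟨⟨h1.1, by omega⟩, h2, by omega, (h n (by omega) h2).1 h3⟩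
  · rintro ⟨h1, h2, h3, h4⟩
    exact ⟨⟨h1.1, by omega⟩, h2, (h n h3 h2).2 h4⟩

theorem fund_core {D : ℤ} (h : Fund D) : Squarefree (core D) ∧ (core D < 0 ↔ D < 0) := by
  rcases h with ⟨h1, h2⟩ | ⟨m, rfl, h1, h2⟩
  · unfold core
    rw [if_pos (by omega)]
    exact ⟨h1, Iff.rfl⟩
  · unfold core
    rw [if_neg (by omega)]
    have : 4 * m / 4 = m := by omega
    rw [this]
    exact ⟨h1, by omega⟩

theorem countDisc_eq (P Q : ℤ → Prop) (h : ∀ d, d < 0 → Squarefree d → (P d ↔ Q d)) (X : ℕ) :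
    countDisc P X = NF (fun d => d < 0 ∧ Q d) X := by
  classical
  unfold countDisc NF
  refine congrArg Finset.card (Finset.ext fun n => ?_)
  simp only [Finset.mem_filter, mem_Icc]
  constructor
  · rintro ⟨h1, h2, h3⟩
    have h5 := (fund_core h2).2.2 (by omega)
    exact ⟨⟨h1.1, by omega⟩, h2, h5, (h _ h5 (fund_core h2).1).1 h3⟩
  · rintro ⟨h1, h2, h3, h4⟩
    have h5 := (fund_core h2).2.1 h3
    exact ⟨⟨h1.1, by omega⟩, h2, (h _ h3 (fund_core h2).1).2 h4⟩

theorem sg_iff (d : ℤ) (hs : Squarefree d) (h2 : d ≠ -1) (h0 : d < 0) :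
    (f15 d = true ∧ Sg15 d) ↔ RankZeroShaTwo d := by
  rw [rank_eq, Pool.Agent.N875.D15.fin2S_iff_sg15 hs]
  constructor
  · exact fun h => Or.inl h.2
  · rintro (h | h | h)
    · exact ⟨f15_of_sg hs h, h⟩
    · omega
    · exact absurd h h2

theorem cls_iff (d : ℤ) (hs : Squarefree d) (h2 : d ≠ -1) (h0 : d < 0) :
    (fA d = true ∧ Sg15 d) ↔ (Class d ∧ NoOrderFour d) := by
  have e : fA d = true ↔ Class d := by
    unfold Pool.Agent.N817.MI.fA Class
    rw [decide_eq_true_iff]
  rw [e]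
  refine and_congr_right fun hc => ?_
  rw [← class_iff h0 hs hc, ← sg_iff d hs h2 h0]
  exact ⟨fun h => ⟨f15_of_sg hs h, h⟩, fun h => h.2⟩

theorem hasProd_eta : HasProd (fun i : ℕ => 1 - (1 / 2 : ℝ) ^ (i + 1)) Pool.Agent.N916.GB.eta := by
  have h : Multipliable fun i : ℕ => 1 + -((1 / 2 : ℝ) ^ (i + 1)) := by
    apply multipliable_one_add_of_summable
    have h1 : Summable fun i : ℕ => (1 / 2 : ℝ) ^ i * (1 / 2) :=
      (summable_geometric_of_lt_one (by norm_num) (by norm_num)).mul_right _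
    refine h1.congr fun i => ?_
    rw [norm_neg, Real.norm_of_nonneg (by positivity), pow_succ]
  have h3 := h.hasProd
  have e : (fun i : ℕ => 1 + -((1 / 2 : ℝ) ^ (i + 1))) = fun i : ℕ => 1 - (1 / 2 : ℝ) ^ (i + 1) := by
    funext i
    ring
  rw [e] at h3
  exact h3

open Pool.Agent.N817.MI (all_NS all_NF cls_NS cls_NF top_NS top_NF)
open Pool.Agent.N969.Den (lim_close NS_close NF_close)

/-- passage to the counts of the theorem -/
theorem dens {P : ℤ → Prop} {Q : ℤ → Prop} {c : ℝ}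
    (h : ∀ d, Squarefree d → d ≠ -1 → d < 0 → (P d ↔ Q d))
    (hA : Tendsto (fun X : ℕ => (NS (fun d => d < 0 ∧ P d) X : ℝ) /
      (NS (fun d => d < 0 ∧ True) X : ℝ)) atTop (nhds c)) :
    Tendsto (fun X : ℕ => (count Q X : ℝ) / (count (fun _ => True) X : ℝ)) atTop (nhds c) := by
  have h1 := lim_close (B := NS fun d => d < 0 ∧ Q d) hA
    (fun X => NS_close (fun d hs _ h2 => and_congr_right fun h3 => h d hs h2 h3) X)
    (fun X => NS_close (fun d hs _ h2 => and_congr_right fun h3 => (h d hs h2 h3).symm) X) top_NS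
  refine h1.congr fun X => ?_
  rw [count_eq Q Q fun _ _ _ => Iff.rfl, count_eq (fun _ => True) (fun _ => True) fun _ _ _ => Iff.rfl]

/-- passage to the counts of the theorem -/
theorem densF {P : ℤ → Prop} {Q : ℤ → Prop} {c : ℝ}
    (h : ∀ d, Squarefree d → d ≠ -1 → d < 0 → (P d ↔ Q d))
    (hA : Tendsto (fun X : ℕ => (NF (fun d => d < 0 ∧ P d) X : ℝ) /
      (NF (fun d => d < 0 ∧ True) X : ℝ)) atTop (nhds c)) :
    Tendsto (fun X : ℕ => (countDisc Q X : ℝ) / (countDisc (fun _ => True) X : ℝ)) atTop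
      (nhds c) := by
  have h1 := lim_close (B := NF fun d => d < 0 ∧ Q d) hA
    (fun X => NF_close (fun d hs _ h2 => and_congr_right fun h3 => h d hs h2 h3) X)
    (fun X => NF_close (fun d hs _ h2 => and_congr_right fun h3 => (h d hs h2 h3).symm) X) top_NF
  refine h1.congr fun X => ?_
  rw [countDisc_eq Q Q fun _ _ _ => Iff.rfl,
    countDisc_eq (fun _ => True) (fun _ => True) fun _ _ _ => Iff.rfl]

theorem count_mono {P Q : ℤ → Prop} (h : ∀ d, d < 0 → Squarefree d → P d → Q d) (X : ℕ) :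
    count P X ≤ count Q X := by
  classical
  unfold count
  refine card_le_card fun d hd => ?_
  obtain ⟨h1, h2, h3⟩ := mem_filter.1 hd
  rw [mem_Icc] at h1
  exact mem_filter.2 ⟨mem_Icc.2 h1, h2, h d (by omega) h2 h3⟩

theorem countDisc_mono {P Q : ℤ → Prop} (h : ∀ d, d < 0 → Squarefree d → P d → Q d) (X : ℕ) :
    countDisc P X ≤ countDisc Q X := by
  classical
  unfold countDisc
  refine card_le_card fun d hd => ?_
  obtain ⟨h1, h2, h3⟩ := mem_filter.1 hd
  rw [mem_Icc] at h1
  exact mem_filter.2 ⟨mem_Icc.2 h1, h2, h _ ((fund_core h2).2.2 (by omega)) (fund_core h2).1 h3⟩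

theorem lower {A B T : ℕ → ℕ} {c : ℝ} (hc : 0.1503 < c) (hAB : ∀ X, A X ≤ B X)
    (h : Tendsto (fun X => (A X : ℝ) / (T X : ℝ)) atTop (nhds c)) :
    ∀ᶠ X : ℕ in atTop, 0.1503 * (T X : ℝ) ≤ (B X : ℝ) := by
  filter_upwards [h.eventually (lt_mem_nhds hc)] with X hX
  have h1 : (A X : ℝ) ≤ B X := by exact_mod_cast hAB X
  rcases Nat.eq_zero_or_pos (T X) with h0 | h0
  · rw [h0, Nat.cast_zero, mul_zero]
    exact Nat.cast_nonneg _
  · have h2 : (0 : ℝ) < T X := by exact_mod_cast h0
    rw [lt_div_iff₀ h2] at hX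
    linarith

end proof

/-- **The curve `X_0(15)` over the imaginary quadratic fields.** -/
theorem result :
    (∀ d : ℤ, d < 0 → Squarefree d → RankZeroShaTwo d → FiniteX15 d) ∧
    (∀ d : ℤ, d < 0 → Squarefree d → Class d → (RankZeroShaTwo d ↔ NoOrderFour d)) ∧
    (∃ η : ℝ, HasProd (fun i : ℕ => 1 - (1 / 2 : ℝ) ^ (i + 1)) η ∧ 0.2887 < η ∧ η < 0.2889 ∧
      Tendsto (fun X : ℕ => (count RankZeroShaTwo X : ℝ) / (count (fun _ => True) X : ℝ))
        atTop (nhds (25 * η / 48)) ∧
      Tendsto (fun X : ℕ => (countDisc RankZeroShaTwo X : ℝ) / (countDisc (fun _ => True) X : ℝ))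
        atTop (nhds (25 * η / 48)) ∧
      Tendsto (fun X : ℕ => (count (fun d => Class d ∧ NoOrderFour d) X : ℝ) /
        (count (fun _ => True) X : ℝ)) atTop (nhds (35 * η / 96)) ∧
      Tendsto (fun X : ℕ => (countDisc (fun d => Class d ∧ NoOrderFour d) X : ℝ) /
        (countDisc (fun _ => True) X : ℝ)) atTop (nhds (35 * η / 96))) ∧
    (∀ᶠ X : ℕ in atTop, 0.1503 * (count (fun _ => True) X : ℝ) ≤ (count FiniteX15 X : ℝ)) ∧
    (∀ᶠ X : ℕ in atTop, 0.1503 * (countDisc (fun _ => True) X : ℝ) ≤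
      (countDisc FiniteX15 X : ℝ)) := by
  have hs := dens (Q := RankZeroShaTwo) sg_iff Pool.Agent.N817.MI.all_NS
  have hf := densF (Q := RankZeroShaTwo) sg_iff Pool.Agent.N817.MI.all_NF
  have hη := Pool.Agent.N916.GB.eta_bounds
  have h15 : (0.1503 : ℝ) < 25 * Pool.Agent.N916.GB.eta / 48 := by
    have := hη.1
    norm_num at this ⊢
    linarith
  refine ⟨fun d h0 _ h => finite_of h0 h, fun d h0 hs h => class_iff h0 hs h,
    ⟨Pool.Agent.N916.GB.eta, hasProd_eta, hη.1, hη.2, hs, hf,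
      dens (Q := fun d => Class d ∧ NoOrderFour d) cls_iff Pool.Agent.N817.MI.cls_NS,
      densF (Q := fun d => Class d ∧ NoOrderFour d) cls_iff Pool.Agent.N817.MI.cls_NF⟩,
    lower h15 (count_mono fun d h0 _ h => finite_of h0 h) hs,
    lower h15 (countDisc_mono fun d h0 _ h => finite_of h0 h) hf⟩

end Pool.Agent.Results.MP_87c685_nt.FinitePointsX15
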