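import Mathlib
import Pool.Agent.N534.AS.LawA
import Pool.Agent.N534.AS.Two
import Pool.Agent.N54.ME.RQ

/-!
# The Asai L-functions of almost all sequences of elliptic curves over an imaginary quadratic field

`K` is any number field, `d = [K : ℚ]`; in the problem `K` is imaginary quadratic and `d = 2`. For an elliptic curve `E` over `K` the
Asai L-function is the L-function over `ℚ` of the tensor induction from `K` to `ℚ` of `V_ℓ(E)`, of dimension `2^d`; the definitions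
are those of `MP_87c685_nt.ThinAsai` (helper666). `A`, `B` are any polynomials in finitely many variables over `𝓞 K`, and
`E_c : y² = x³ + A(u) x + B(u) + ∑ t_i ω_i`, `c = (t, u)` (`ω` a basis of `𝓞 K` over `ℤ`). The curves are thin: `c = c(n)` is one
sequence of integral vectors, with arbitrary growth: for almost all real vectors `ξ`, in the sense of the Lebesgue measure,

* `c(n)_k = ⌊ξ_k g_k(n) + c_k(n)⌋`, where the `g_k`, `c_k` are ANY real sequences with `g_k(n + 1) - g_k(n) ≥ n ^ (ρ - 1)` for large `n`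
  (for instance all `g_k` equal, `g_k(n) = n`, `n ^ ρ`, `n!`, and any `c_k`);
* `c(n)_k = ⌊ξ_k ^ g_k(n) + c_k(n)⌋`, `ξ_k > 1`, for ANY strictly increasing sequences `g_k` of natural numbers and any real
  sequences `c_k` (for instance `⌊ξ ^ n⌋`);
* `c(n)_k = ⌊F_k,n(ξ_k)⌋`, `ξ_k ∈ (u_k, v_k]`, for all families of functions with separated increasing derivatives (`Spread`).

Example, `K = ℚ(i)`: `y² = x³ + (⌊ξ₁ n⌋ + ⌊ξ₂ n⌋ i) x + ⌊ξ₃ n⌋ + ⌊ξ₄ n⌋ i`, for almost all `ξ`. `n` runs through the integers, or the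
primes, of `(N, 2 N]`.

Theorem. For almost all `ξ` (one null set for all fields `K` of the given degree, all bases `ω`, all `A`, `B`, all finite sets `S` of
omitted primes, all `T`, `N` and all points `s_k`), for the integers and for the primes of `(N, 2N]`:
(1) the mean over `n` of the square of the supremum of `|log L(E_{c(n)}, s)|` over the rectangle `1 + d/2 + 1/log N ≤ Re s ≤ 2 + d/2`,
`|Im s| ≤ T` is at most `C (1 + T)`, `C` free of `N ≥ N₀` and `T`; so `|log L| ≤ (C (1 + T) / δ)^(1/2)` in the rectangle for all `n`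
outside a proportion `δ`;
(2) for points `s_k` with `Re s_k ≥ 1 + d/2` (on the edge allowed) and `σ_k(N) → s_k` with `(Re σ_k(N) - 1 - d/2) log N → ∞` the joint
distribution of the `L(E_{c(n)}, σ_k(N))` converges to that of the values at `s_k` of the random Euler product (independent uniform
residue classes modulo the primes): the law of the full boxes.
-/

set_option autoImplicit false

open NumberField IsDedekindDomain MeasureTheory Filter Topology

namespace Pool.Agent.Results.MP_87c685_nt.MetricAsai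

/-- On `[u, v]` the derivatives of the functions `F n` grow from `n` to `n + 1` by at least `n ^ (ρ - 1)`, and their second derivatives
do not decrease, for large `n`. -/
def Spread (ρ u v : ℝ) (F : ℕ → ℝ → ℝ) : Prop :=
  (∀ n, ContDiff ℝ 2 (F n)) ∧ ∃ n₀ : ℕ, ∀ n, n₀ ≤ n → ∀ x ∈ Set.Icc u v,
    (n : ℝ) ^ (ρ - 1) ≤ deriv (F (n + 1)) x - deriv (F n) x ∧
      deriv (deriv (F n)) x ≤ deriv (deriv (F (n + 1))) x

section
variable {K : Type} [Field K] [NumberField K]

/-- `6 (4 a³ + 27 b²)`. -/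
noncomputable def disc (a b : 𝓞 K) : 𝓞 K := 6 * (4 * a ^ 3 + 27 * b ^ 2)

/-- `a_v`: the norm of `v` minus the number of affine points of `y² = x³ + a x + b` over the residue field. -/
noncomputable def trace (a b : 𝓞 K) (v : HeightOneSpectrum (𝓞 K)) : ℤ :=
  ((Ideal.absNorm v.asIdeal : ℕ) : ℤ) -
    ((Nat.card {p : (𝓞 K ⧸ v.asIdeal) × (𝓞 K ⧸ v.asIdeal) //
      p.2 ^ 2 = p.1 ^ 3 + Ideal.Quotient.mk v.asIdeal a * p.1 + Ideal.Quotient.mk v.asIdeal b} : ℕ) : ℤ)

/-- The root `α = (a + i √(4 q - a²)) / 2` of `X² - a X + q`; the other root is its complex conjugate. -/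
noncomputable def eigenvalue (a : ℤ) (q : ℕ) : ℂ :=
  ((a : ℂ) + Complex.I * ((Real.sqrt (4 * q - a ^ 2) : ℝ) : ℂ)) / 2

/-- The sum of the `k`-th powers of the two roots. -/
noncomputable def powerSum (a : ℤ) (q k : ℕ) : ℝ := 2 * (eigenvalue a q ^ k).re

/-- The trace of the `k`-th power of the Frobenius at `p` on the tensor induction: the product over the primes `v` above `p`, of residue
degree `f`, of the `g`-th power of the sum of the `k/g`-th powers of the two eigenvalues at `v`, `g = gcd(k, f)`. -/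
noncomputable def asaiTrace (a b : 𝓞 K) (p k : ℕ) : ℝ :=
  ∏ᶠ v : {v : HeightOneSpectrum (𝓞 K) // (p : 𝓞 K) ∈ v.asIdeal},
    powerSum (trace a b v.1) (Ideal.absNorm v.1.asIdeal) (k / Nat.gcd k (Nat.log p (Ideal.absNorm v.1.asIdeal))) ^
      Nat.gcd k (Nat.log p (Ideal.absNorm v.1.asIdeal))

open Classical in
/-- The logarithm `∑ (trace of the k-th power) p^{-ks} / k` of the Euler factor at `p`; it is omitted for `p` in the finite set `S` and if
a prime above `p` divides `6 (4 a³ + 27 b²)`. -/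
noncomputable def logFactor (S : Finset ℕ) (a b : 𝓞 K) (s : ℂ) (p : ℕ) : ℂ :=
  if p ∈ S ∨ ∃ v : HeightOneSpectrum (𝓞 K), (p : 𝓞 K) ∈ v.asIdeal ∧ disc a b ∈ v.asIdeal then 0 else
    ∑' k : ℕ, (asaiTrace a b p (k + 1) : ℂ) / ((k : ℂ) + 1) * (p : ℂ) ^ (-(((k : ℂ) + 1) * s))

/-- The logarithm of the Asai L-function. -/
noncomputable def logL (S : Finset ℕ) (a b : 𝓞 K) (s : ℂ) : ℂ := ∑' p : Nat.Primes, logFactor S a b s (p : ℕ)

/-- The Asai L-function: the product of the Euler factors. -/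
noncomputable def LSeries (S : Finset ℕ) (a b : 𝓞 K) (s : ℂ) : ℂ :=
  ∏' p : Nat.Primes, Complex.exp (logFactor S a b s (p : ℕ))

variable {I J : Type} [Fintype I] [Fintype J] [DecidableEq I] [DecidableEq J]

/-- `A(u)`, for `c = (t, u)`. -/
noncomputable def coeffA (A : MvPolynomial J (𝓞 K)) (c : I ⊕ J → ℤ) : 𝓞 K :=
  MvPolynomial.eval (fun j => ((c (Sum.inr j) : ℤ) : 𝓞 K)) A

/-- `B(u) + ∑ t_i ω_i`, for `c = (t, u)`. -/
noncomputable def coeffB (ω : Module.Basis I ℤ (𝓞 K)) (B : MvPolynomial J (𝓞 K)) (c : I ⊕ J → ℤ) : 𝓞 K :=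
  MvPolynomial.eval (fun j => ((c (Sum.inr j) : ℤ) : 𝓞 K)) B + ∑ i, ((c (Sum.inl i) : ℤ) : 𝓞 K) * ω i

/-- Vectors of residue classes, one for each prime. -/
abbrev Residues (ι : Type) : Type := ∀ p : Nat.Primes, ι → ZMod (p : ℕ)

/-- The residue classes are independent and uniform. -/
noncomputable def uniform (ι : Type) [Fintype ι] [DecidableEq ι] : Measure (Residues ι) :=
  Measure.infinitePi fun p => (PMF.uniformOfFintype (ι → ZMod (p : ℕ))).toMeasure

/-- An integer vector in the residue class modulo `p`. -/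
def lift {ι : Type} (x : Residues ι) (p : Nat.Primes) : ι → ℤ := fun i => ((x p i).val : ℤ)

/-- The prime numbers up to `z`. -/
def primesUpTo (z : ℕ) : Finset Nat.Primes := (Finset.range (z + 1)).subtype Nat.Prime

/-- The logarithm of the random Euler product over the primes `p ≤ z`: the Euler factor at `p` is that of the curve given by the
residue classes modulo `p`. -/
noncomputable def randomLog {ι : Type} (S : Finset ℕ) (a b : (ι → ℤ) → 𝓞 K) (z : ℕ) (s : ℂ) (x : Residues ι) : ℂ :=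
  ∑ p ∈ primesUpTo z, logFactor S (a (lift x p)) (b (lift x p)) s (p : ℕ)

/-- The rectangle `1 + d/2 + 1/log N ≤ Re s ≤ 2 + d/2`, `|Im s| ≤ T`. -/
def rectangle (d N : ℕ) (T : ℝ) : Set ℂ :=
  {s | 1 + (d : ℝ) / 2 + 1 / Real.log N ≤ s.re ∧ s.re ≤ 2 + (d : ℝ) / 2 ∧ |s.im| ≤ T}

/-- The functions `L n`, `n ∈ S`, are bounded on the average in the region `R`. -/
def BoundedOn (L : ℕ → ℂ → ℂ) (S : Finset ℕ) (R : Set ℂ) (C : ℝ) : Prop :=
  (∀ S' ⊆ S, ∀ u : ℕ → ℂ, (∀ n ∈ S', u n ∈ R) → ∑ n ∈ S', ‖L n (u n)‖ ^ 2 ≤ C * S.card) ∧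
  (∀ δ : ℝ, 0 < δ → ∃ X ⊆ S, (X.card : ℝ) ≤ δ * S.card ∧
    ∀ n ∈ S \ X, ∀ u ∈ R, ‖L n u‖ ≤ Real.sqrt (C / δ))

/-- The joint distribution of the values `X N n k` for `n ∈ S N` tends to that of the `exp (Z k)`. -/
def ConvergesTo {ι κ : Type} [Fintype ι] [DecidableEq ι] [Fintype κ] (S : ℕ → Finset ℕ) (X : ℕ → ℕ → κ → ℂ)
    (Z : κ → Residues ι → ℂ) : Prop :=
  (∀ G : (κ → ℂ) → ℝ, Continuous G → (∃ C : ℝ, ∀ y, |G y| ≤ C) →
    Tendsto (fun N : ℕ => (∑ n ∈ S N, G (X N n)) / (S N).card) atTop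
      (𝓝 (∫ x, G (fun k => Complex.exp (Z k x)) ∂(uniform ι)))) ∧
  (∀ E : Set (κ → ℂ), MeasurableSet E → uniform ι {x | (fun k => Complex.exp (Z k x)) ∈ frontier E} = 0 →
    Tendsto (fun N : ℕ => (open Classical in ((S N).filter (fun n => X N n ∈ E)).card : ℝ) / (S N).card) atTop
      (𝓝 ((uniform ι).real {x | (fun k => Complex.exp (Z k x)) ∈ E})))

/-- `Z` is the logarithm of the random Euler product at `s`: the limit in the mean of the sums over the primes `p ≤ z`. -/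
def IsRandomLog {ι : Type} [Fintype ι] [DecidableEq ι] (S : Finset ℕ) (a b : (ι → ℤ) → 𝓞 K) (s : ℂ) (Z : Residues ι → ℂ) : Prop :=
  Measurable Z ∧ Integrable Z (uniform ι) ∧
    Tendsto (fun z : ℕ => ∫ x, ‖randomLog S a b z s x - Z x‖ ∂(uniform ι)) atTop (𝓝 0)

/-- The mean of the square of the supremum of `|log L|` over the rectangle is at most `C (1 + T)`, for the integers and the primes
of `(N, 2 N]`. -/
def SupremumBounded (ω : Module.Basis I ℤ (𝓞 K)) (A B : MvPolynomial J (𝓞 K)) (S : Finset ℕ) (x : ℕ → I ⊕ J → ℤ) : Prop :=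
  ∃ C : ℝ, 0 < C ∧ ∃ N₀ : ℕ, ∀ N : ℕ, N₀ ≤ N → ∀ T : ℝ, 0 ≤ T →
    BoundedOn (fun n => logL S (coeffA A (x n)) (coeffB ω B (x n))) (Finset.Ioc N (2 * N))
      (rectangle (Module.finrank ℚ K) N T) (C * (1 + T)) ∧
    BoundedOn (fun n => logL S (coeffA A (x n)) (coeffB ω B (x n))) ((Finset.Ioc N (2 * N)).filter Nat.Prime)
      (rectangle (Module.finrank ℚ K) N T) (C * (1 + T))

/-- The limit law of the joint distribution of the values of the Asai L-functions up to the line `Re s = 1 + d/2`. -/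
def LimitLaw (ω : Module.Basis I ℤ (𝓞 K)) (A B : MvPolynomial J (𝓞 K)) (S : Finset ℕ) (x : ℕ → I ⊕ J → ℤ) : Prop :=
  ∀ (κ : Type) [Fintype κ] (s : κ → ℂ) (Z : κ → Residues (I ⊕ J) → ℂ),
    (∀ k, 1 + (Module.finrank ℚ K : ℝ) / 2 ≤ (s k).re) →
    (∀ k, IsRandomLog S (coeffA A) (coeffB ω B) (s k) (Z k)) →
    ∀ σ : ℕ → κ → ℂ, (∀ k, Tendsto (fun N => σ N k) atTop (𝓝 (s k))) →
      (∀ k, Tendsto (fun N : ℕ => ((σ N k).re - (1 + (Module.finrank ℚ K : ℝ) / 2)) * Real.log N) atTop atTop) →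
      ConvergesTo (fun N => Finset.Ioc N (2 * N))
        (fun N n k => LSeries S (coeffA A (x n)) (coeffB ω B (x n)) (σ N k)) Z ∧
      ConvergesTo (fun N => (Finset.Ioc N (2 * N)).filter Nat.Prime)
        (fun N n k => LSeries S (coeffA A (x n)) (coeffB ω B (x n)) (σ N k)) Z

/-- Both statements, for all fields `K` with a basis of `𝓞 K` indexed by `I`, all `A`, `B` and `S`. -/
def Holds (x : ℕ → I ⊕ J → ℤ) : Prop :=
  ∀ (K : Type) [Field K] [NumberField K] (ω : Module.Basis I ℤ (𝓞 K)) (A B : MvPolynomial J (𝓞 K)) (S : Finset ℕ),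
    SupremumBounded ω A B S x ∧ LimitLaw ω A B S x

/-- **The Asai L-functions of almost all sequences of elliptic curves over a number field: (1) the supremum near the line
`Re s = 1 + d/2`, (2) the limit law up to this line.** -/
theorem result :
    (∀ {I J : Type} [Fintype I] [Fintype J] [DecidableEq I] [DecidableEq J] [Nonempty I] {ρ : ℝ}, 0 < ρ → ρ ≤ 1 →
      (∀ (u v : I ⊕ J → ℝ) (F : I ⊕ J → ℕ → ℝ → ℝ), (∀ k, Spread ρ (u k) (v k) (F k)) →
        ∀ᵐ ξ : I ⊕ J → ℝ, (∀ k, ξ k ∈ Set.Ioc (u k) (v k)) → Holds (fun n k => ⌊F k n (ξ k)⌋)) ∧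
      (∀ g c : I ⊕ J → ℕ → ℝ, (∀ k, ∀ᶠ n : ℕ in atTop, (n : ℝ) ^ (ρ - 1) ≤ g k (n + 1) - g k n) →
        ∀ᵐ ξ : I ⊕ J → ℝ, Holds (fun n k => ⌊ξ k * g k n + c k n⌋)) ∧
      (∀ (g : I ⊕ J → ℕ → ℕ) (c : I ⊕ J → ℕ → ℝ), (∀ k, StrictMono (g k)) →
        ∀ᵐ ξ : I ⊕ J → ℝ, (∀ k, 1 < ξ k) → Holds (fun n k => ⌊ξ k ^ g k n + c k n⌋))) ∧
    ∀ {I J : Type} [Fintype I] [Fintype J] [DecidableEq I] [DecidableEq J] (K : Type) [Field K] [NumberField K]
      (ω : Module.Basis I ℤ (𝓞 K)) (A B : MvPolynomial J (𝓞 K)) (S : Finset ℕ),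
      Nonempty I ∧
      (∀ (v : I ⊕ J → ℤ) (s : ℂ), 1 + (Module.finrank ℚ K : ℝ) / 2 < s.re →
        LSeries S (coeffA A v) (coeffB ω B v) s = Complex.exp (logL S (coeffA A v) (coeffB ω B v) s)) ∧
      ∀ s : ℂ, 1 + (Module.finrank ℚ K : ℝ) / 2 ≤ s.re →
        ∃ Z : Residues (I ⊕ J) → ℂ, IsRandomLog S (coeffA A) (coeffB ω B) s Z := by
  have hnonempty : ∀ {I : Type} [Fintype I] (K : Type) [Field K] [NumberField K] (_ : Module.Basis I ℤ (𝓞 K)),
      Nonempty I := by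
    intro I _ K _ _ ω
    by_contra hI
    rw [not_nonempty_iff] at hI
    have h1 : (1 : 𝓞 K) = 0 := by
      have := ω.sum_repr (1 : 𝓞 K)
      rw [← this]
      simp
    exact one_ne_zero h1
  have hL : ∀ {I J : Type} [Fintype I] [Fintype J] [DecidableEq I] [DecidableEq J] (K : Type) [Field K]
      [NumberField K] (ω : Module.Basis I ℤ (𝓞 K)) (A B : MvPolynomial J (𝓞 K)) (S : Finset ℕ)
      (v : I ⊕ J → ℤ) (s : ℂ) (p : Nat.Primes), logFactor S (coeffA A v) (coeffB ω B v) s (p : ℕ) =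
      Pool.Agent.N534.PS.lamT (Module.finrank ℚ K) 5
        (Pool.Agent.N534.AS.TA (Pool.Agent.N534.EC.ca (I := I) A) (Pool.Agent.N534.EC.cb ω B))
        (Pool.Agent.N534.AS.BA S (Pool.Agent.N534.EC.ca (I := I) A) (Pool.Agent.N534.EC.cb ω B)) v (p : ℕ)
        (s - (1 + (Module.finrank ℚ K : ℂ) / 2)) := by
    intro I J _ _ _ _ K _ _ ω A B S v s p
    have hI := hnonempty K ω
    have hne : Nonempty (I ⊕ J) := ⟨Sum.inl (Classical.choice hI)⟩
    exact Pool.Agent.N534.AS.State.logFactor_eq S (Pool.Agent.N534.AS.shift_two (I := I) ω A B) v s p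
  refine ⟨?_, ?_⟩
  · intro I J _ _ _ _ _ ρ hρ hρ1
    have hne : Nonempty (I ⊕ J) := ⟨Sum.inl (Classical.arbitrary I)⟩
    refine Pool.Agent.N54.ME.three (ι := I ⊕ J) hρ hρ1 Holds fun x hx => ?_
    intro K _ _ ω A B S
    have hκ := Pool.Agent.N54.ME.kap_pos hρ (Fintype.card (I ⊕ J))
    have hsh := Pool.Agent.N534.AS.shift_two (I := I) ω A B
    have hpow := Pool.Agent.N534.AS.powA hsh S
    exact ⟨Pool.Agent.N54.ME.rq_avg (L := fun v s p => logFactor S (coeffA A v) (coeffB ω B v) s (p : ℕ))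
        (hL K ω A B S) hpow hκ hx,
      fun κ _ s Z hs hZ σ hσ hσl =>
        Pool.Agent.N54.ME.rq_law (L := fun v s p => logFactor S (coeffA A v) (coeffB ω B v) s (p : ℕ))
          (hL K ω A B S) hpow hκ hx s Z hs (fun k => (hZ k).2.1) (fun k => (hZ k).2.2) σ hσ hσl⟩
  · intro I J _ _ _ _ K _ _ ω A B S
    have hI := hnonempty K ω
    have hne : Nonempty (I ⊕ J) := ⟨Sum.inl (Classical.choice hI)⟩
    have hsh := Pool.Agent.N534.AS.shift_two (I := I) ω A B
    have hpow := Pool.Agent.N534.AS.powA hsh S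
    refine ⟨hI, fun v s hs => ?_, fun s hs => ?_⟩
    · exact Pool.Agent.N666.TM.RQ.prod_eq (L := fun v s p => logFactor S (coeffA A v) (coeffB ω B v) s (p : ℕ))
        (hL K ω A B S) hpow v s hs
    · exact Pool.Agent.N54.ME.rq_random (L := fun v s p => logFactor S (coeffA A v) (coeffB ω B v) s (p : ℕ))
        (hL K ω A B S) hpow s hs

end

end Pool.Agent.Results.MP_87c685_nt.MetricAsai
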