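import Mathlib
import Pool.Agent.N534.AS.LawA
import Pool.Agent.N534.AS.Two
import Pool.Agent.N666.TM.RQ

/-!
# The Asai L-functions of thin sequences of elliptic curves over an imaginary quadratic field

`K` is any number field, `d = [K : ℚ]`; in the problem `K` is imaginary quadratic and `d = 2`. For an elliptic curve `E` over `K` the Asai L-function
is the L-function over `ℚ` of the tensor induction from `K` to `ℚ` of `V_ℓ(E)`, of dimension `2^d`. If `E` is modular by a Bianchi newform `F` (`K`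
imaginary quadratic), it is the Asai L-function of `F`, of degree `4`, whose analytic properties are known (Asai, Krishnamurthy); for a
single curve which is not known to be modular nothing is known left of the edge of absolute convergence `Re s = 1 + d/2` (`= 2`).
For a prime `p` such that `E` has good reduction at all `v ∣ p`, with the Frobenius eigenvalues `α_v, β_v` and the residue degrees `f_v`, the trace
of the `k`-th power of the Frobenius at `p` on the tensor induction is `∏_{v ∣ p} (α_v^{k/g} + β_v^{k/g})^g`, `g = gcd(k, f_v)`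
(`a_v a_w` for `p = v w` split and `k = 1`, `a_v` for `p = v` inert and `k = 1`, `a_v^2` for `p` inert and `k = 2`);
`L(E, s)` is the Euler product over these `p` outside a finite set `S` (which may contain the ramified primes).

`A`, `B` are any polynomials in finitely many variables over `𝓞 K`, and `E_c : y² = x³ + A(u) x + B(u) + ∑ t_i ω_i`, `c = (t, u)` (`ω` a basis of
`𝓞 K` over `ℤ`). The curves are thin: `c = c(n)`, `c(n)_k = ⌊P_k(n)⌋`, where the `P_k` are generalised polynomials (finite sums of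
real powers with real coefficients) whose leading exponents are positive, not integers and different from each other, with positive leading
coefficients; `n` runs through the integers, or the primes, of `(N, 2 N]`. Example, `K = ℚ(i)`:
`y² = x³ + (⌊n^√2⌋ + ⌊n^√3⌋ i) x + ⌊n^√5⌋ + ⌊n^π⌋ i`. These are `N` of about `N^6` curves of this size.

Theorem, for the integers and for the primes of `(N, 2N]`:
(1) the mean over `n` of the square of the supremum of `|log L(E_{c(n)}, s)|` over the rectangle `1 + d/2 + 1/log N ≤ Re s ≤ 2 + d/2`, `|Im s| ≤ T` is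
at most `C (1 + T)`, `C` free of `N ≥ N₀` and `T`; so `|log L| ≤ (C (1 + T) / δ)^(1/2)` in the rectangle for all `n` outside a proportion `δ`;
(2) for points `s_k` with `Re s_k ≥ 1 + d/2` (on the edge allowed) and `σ_k(N) → s_k` with `(Re σ_k(N) - 1 - d/2) log N → ∞` the joint distribution
of the `L(E_{c(n)}, σ_k(N))` converges to that of the values at `s_k` of the random Euler product (independent uniform residue
classes modulo the primes): the law of the full boxes.
-/

set_option autoImplicit false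

open NumberField IsDedekindDomain MeasureTheory Filter Topology

namespace Pool.Agent.Results.MP_87c685_nt.ThinAsai

section
variable {K : Type} [Field K] [NumberField K]

/-- `6 (4 a³ + 27 b²)`. -/
noncomputable def disc (a b : 𝓞 K) : 𝓞 K := 6 * (4 * a ^ 3 + 27 * b ^ 2)

/-- `a_v`: the norm of `v` minus the number of affine points of `y² = x³ + a x + b` over the residue field. -/
noncomputable def trace (a b : 𝓞 K) (v : HeightOneSpectrum (𝓞 K)) : ℤ :=
  ((Ideal.absNorm v.asIdeal : ℕ) : ℤ) -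
    ((Nat.card {p : (𝓞 K ⧸ v.asIdeal) × (𝓞 K ⧸ v.asIdeal) //
      p.2 ^ 2 = p.1 ^ 3 + Ideal.Quotient.mk v.asIdeal a * p.1 + Ideal.Quotient.mk v.asIdeal b} : ℕ) : ℤ)

/-- The root `α = (a + i √(4 q - a²)) / 2` of `X² - a X + q`; the other root is its complex conjugate. -/
noncomputable def eigenvalue (a : ℤ) (q : ℕ) : ℂ :=
  ((a : ℂ) + Complex.I * ((Real.sqrt (4 * q - a ^ 2) : ℝ) : ℂ)) / 2

/-- The sum of the `k`-th powers of the two roots. -/
noncomputable def powerSum (a : ℤ) (q k : ℕ) : ℝ := 2 * (eigenvalue a q ^ k).re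

/-- The trace of the `k`-th power of the Frobenius at `p` on the tensor induction: the product over the primes `v` above `p`, of residue
degree `f`, of the `g`-th power of the sum of the `k/g`-th powers of the two eigenvalues at `v`, `g = gcd(k, f)`. -/
noncomputable def asaiTrace (a b : 𝓞 K) (p k : ℕ) : ℝ :=
  ∏ᶠ v : {v : HeightOneSpectrum (𝓞 K) // (p : 𝓞 K) ∈ v.asIdeal},
    powerSum (trace a b v.1) (Ideal.absNorm v.1.asIdeal) (k / Nat.gcd k (Nat.log p (Ideal.absNorm v.1.asIdeal))) ^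
      Nat.gcd k (Nat.log p (Ideal.absNorm v.1.asIdeal))

open Classical in
/-- The logarithm `∑ (trace of the k-th power) p^{-ks} / k` of the Euler factor at `p`; it is omitted for `p` in the finite set `S` and if
a prime above `p` divides `6 (4 a³ + 27 b²)`. -/
noncomputable def logFactor (S : Finset ℕ) (a b : 𝓞 K) (s : ℂ) (p : ℕ) : ℂ :=
  if p ∈ S ∨ ∃ v : HeightOneSpectrum (𝓞 K), (p : 𝓞 K) ∈ v.asIdeal ∧ disc a b ∈ v.asIdeal then 0 else
    ∑' k : ℕ, (asaiTrace a b p (k + 1) : ℂ) / ((k : ℂ) + 1) * (p : ℂ) ^ (-(((k : ℂ) + 1) * s))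

/-- The logarithm of the Asai L-function. -/
noncomputable def logL (S : Finset ℕ) (a b : 𝓞 K) (s : ℂ) : ℂ := ∑' p : Nat.Primes, logFactor S a b s (p : ℕ)

/-- The Asai L-function: the product of the Euler factors. -/
noncomputable def LSeries (S : Finset ℕ) (a b : 𝓞 K) (s : ℂ) : ℂ :=
  ∏' p : Nat.Primes, Complex.exp (logFactor S a b s (p : ℕ))

variable {I J : Type} [Fintype I] [Fintype J] [DecidableEq I] [DecidableEq J]

/-- `A(u)`, for `c = (t, u)`. -/
noncomputable def coeffA (A : MvPolynomial J (𝓞 K)) (c : I ⊕ J → ℤ) : 𝓞 K :=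
  MvPolynomial.eval (fun j => ((c (Sum.inr j) : ℤ) : 𝓞 K)) A

/-- `B(u) + ∑ t_i ω_i`, for `c = (t, u)`. -/
noncomputable def coeffB (ω : Module.Basis I ℤ (𝓞 K)) (B : MvPolynomial J (𝓞 K)) (c : I ⊕ J → ℤ) : 𝓞 K :=
  MvPolynomial.eval (fun j => ((c (Sum.inr j) : ℤ) : 𝓞 K)) B + ∑ i, ((c (Sum.inl i) : ℤ) : 𝓞 K) * ω i

/-- Vectors of residue classes, one for each prime. -/
abbrev Residues (ι : Type) : Type := ∀ p : Nat.Primes, ι → ZMod (p : ℕ)

/-- The residue classes are independent and uniform. -/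
noncomputable def uniform (ι : Type) [Fintype ι] [DecidableEq ι] : Measure (Residues ι) :=
  Measure.infinitePi fun p => (PMF.uniformOfFintype (ι → ZMod (p : ℕ))).toMeasure

/-- An integer vector in the residue class modulo `p`. -/
def lift {ι : Type} (x : Residues ι) (p : Nat.Primes) : ι → ℤ := fun i => ((x p i).val : ℤ)

/-- The prime numbers up to `z`. -/
def primesUpTo (z : ℕ) : Finset Nat.Primes := (Finset.range (z + 1)).subtype Nat.Prime

/-- The logarithm of the random Euler product over the primes `p ≤ z`: the Euler factor at `p` is that of the curve given by the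
residue classes modulo `p`. -/
noncomputable def randomLog {ι : Type} (S : Finset ℕ) (a b : (ι → ℤ) → 𝓞 K) (z : ℕ) (s : ℂ) (x : Residues ι) : ℂ :=
  ∑ p ∈ primesUpTo z, logFactor S (a (lift x p)) (b (lift x p)) s (p : ℕ)

/-- The rectangle `1 + d/2 + 1/log N ≤ Re s ≤ 2 + d/2`, `|Im s| ≤ T`. -/
def rectangle (d N : ℕ) (T : ℝ) : Set ℂ :=
  {s | 1 + (d : ℝ) / 2 + 1 / Real.log N ≤ s.re ∧ s.re ≤ 2 + (d : ℝ) / 2 ∧ |s.im| ≤ T}

/-- `c` is the largest exponent of the generalised polynomial `∑ a_x t ^ x`; it is positive and not an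
integer and has a positive coefficient. -/
def Admissible (F : Finset ℝ) (a : ℝ → ℝ) (c : ℝ) : Prop :=
  c ∈ F ∧ (∀ x ∈ F, x ≤ c) ∧ 0 < c ∧ (∀ m : ℕ, c ≠ m) ∧ 0 < a c

/-- The integer parts of the values at `n` of the generalised polynomials `∑ a_x t ^ x`, `x ∈ F k`. -/
noncomputable def floors {ι : Type} (F : ι → Finset ℝ) (a : ι → ℝ → ℝ) (n : ℕ) (k : ι) : ℤ :=
  ⌊∑ x ∈ F k, a k x * (n : ℝ) ^ x⌋

/-- The functions `L n`, `n ∈ S`, are bounded on the average in the region `R`. -/
def BoundedOn (L : ℕ → ℂ → ℂ) (S : Finset ℕ) (R : Set ℂ) (C : ℝ) : Prop :=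
  (∀ S' ⊆ S, ∀ u : ℕ → ℂ, (∀ n ∈ S', u n ∈ R) → ∑ n ∈ S', ‖L n (u n)‖ ^ 2 ≤ C * S.card) ∧
  (∀ δ : ℝ, 0 < δ → ∃ X ⊆ S, (X.card : ℝ) ≤ δ * S.card ∧
    ∀ n ∈ S \ X, ∀ u ∈ R, ‖L n u‖ ≤ Real.sqrt (C / δ))

/-- The joint distribution of the values `X N n k` for `n ∈ S N` tends to that of the `exp (Z k)`. -/
def ConvergesTo {ι κ : Type} [Fintype ι] [DecidableEq ι] [Fintype κ] (S : ℕ → Finset ℕ) (X : ℕ → ℕ → κ → ℂ)
    (Z : κ → Residues ι → ℂ) : Prop :=
  (∀ G : (κ → ℂ) → ℝ, Continuous G → (∃ C : ℝ, ∀ y, |G y| ≤ C) →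
    Tendsto (fun N : ℕ => (∑ n ∈ S N, G (X N n)) / (S N).card) atTop
      (𝓝 (∫ x, G (fun k => Complex.exp (Z k x)) ∂(uniform ι)))) ∧
  (∀ E : Set (κ → ℂ), MeasurableSet E → uniform ι {x | (fun k => Complex.exp (Z k x)) ∈ frontier E} = 0 →
    Tendsto (fun N : ℕ => (open Classical in ((S N).filter (fun n => X N n ∈ E)).card : ℝ) / (S N).card) atTop
      (𝓝 ((uniform ι).real {x | (fun k => Complex.exp (Z k x)) ∈ E})))

/-- **The Asai L-functions of thin sequences of elliptic curves over a number field: (1) the supremum near the line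
`Re s = 1 + d/2`, (2) the limit law up to this line.** -/
theorem result (ω : Module.Basis I ℤ (𝓞 K)) (A B : MvPolynomial J (𝓞 K)) (S : Finset ℕ)
    (F : I ⊕ J → Finset ℝ) (a : I ⊕ J → ℝ → ℝ) (c : I ⊕ J → ℝ)
    (h : ∀ k, Admissible (F k) (a k) (c k)) (hc : Function.Injective c) :
    (∀ (v : I ⊕ J → ℤ) (s : ℂ), 1 + (Module.finrank ℚ K : ℝ) / 2 < s.re →
      LSeries S (coeffA A v) (coeffB ω B v) s = Complex.exp (logL S (coeffA A v) (coeffB ω B v) s)) ∧
    (∃ C : ℝ, 0 < C ∧ ∃ N₀ : ℕ, ∀ N : ℕ, N₀ ≤ N → ∀ T : ℝ, 0 ≤ T →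
      BoundedOn (fun n => logL S (coeffA A (floors F a n)) (coeffB ω B (floors F a n))) (Finset.Ioc N (2 * N))
        (rectangle (Module.finrank ℚ K) N T) (C * (1 + T)) ∧
      BoundedOn (fun n => logL S (coeffA A (floors F a n)) (coeffB ω B (floors F a n)))
        ((Finset.Ioc N (2 * N)).filter Nat.Prime) (rectangle (Module.finrank ℚ K) N T) (C * (1 + T))) ∧
    ∀ {κ : Type} [Fintype κ] (s : κ → ℂ), (∀ k, 1 + (Module.finrank ℚ K : ℝ) / 2 ≤ (s k).re) →
      ∃ Z : κ → Residues (I ⊕ J) → ℂ, (∀ k, Measurable (Z k)) ∧ (∀ k, Integrable (Z k) (uniform (I ⊕ J))) ∧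
        (∀ k, Tendsto (fun z : ℕ => ∫ x, ‖randomLog S (coeffA A) (coeffB ω B) z (s k) x - Z k x‖ ∂(uniform (I ⊕ J)))
          atTop (𝓝 0)) ∧
        ∀ σ : ℕ → κ → ℂ, (∀ k, Tendsto (fun N => σ N k) atTop (𝓝 (s k))) →
          (∀ k, Tendsto (fun N : ℕ => ((σ N k).re - (1 + (Module.finrank ℚ K : ℝ) / 2)) * Real.log N) atTop atTop) →
          ConvergesTo (fun N => Finset.Ioc N (2 * N))
            (fun N n k => LSeries S (coeffA A (floors F a n)) (coeffB ω B (floors F a n)) (σ N k)) Z ∧
          ConvergesTo (fun N => (Finset.Ioc N (2 * N)).filter Nat.Prime)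
            (fun N n k => LSeries S (coeffA A (floors F a n)) (coeffB ω B (floors F a n)) (σ N k)) Z := by
  have hI : Nonempty I := by
    by_contra hI
    rw [not_nonempty_iff] at hI
    have h1 : (1 : 𝓞 K) = 0 := by
      have := ω.sum_repr (1 : 𝓞 K)
      rw [← this]
      simp
    exact one_ne_zero h1
  have hsh := Pool.Agent.N534.AS.shift_two (I := I) ω A B
  have hL : ∀ (v : I ⊕ J → ℤ) (s : ℂ) (p : Nat.Primes), logFactor S (coeffA A v) (coeffB ω B v) s (p : ℕ) =
      Pool.Agent.N534.PS.lamT (Module.finrank ℚ K) 5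
        (Pool.Agent.N534.AS.TA (Pool.Agent.N534.EC.ca (I := I) A) (Pool.Agent.N534.EC.cb ω B))
        (Pool.Agent.N534.AS.BA S (Pool.Agent.N534.EC.ca (I := I) A) (Pool.Agent.N534.EC.cb ω B)) v (p : ℕ)
        (s - (1 + (Module.finrank ℚ K : ℂ) / 2)) := fun v s p =>
    Pool.Agent.N534.AS.State.logFactor_eq S hsh v s p
  have main := Pool.Agent.N666.TM.RQ.thin_Q (L := fun v s p => logFactor S (coeffA A v) (coeffB ω B v) s (p : ℕ))
    hL (Pool.Agent.N534.AS.powA hsh S) h hc
  exact main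

end

end Pool.Agent.Results.MP_87c685_nt.ThinAsai
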